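import Mathlib
import Pool.Agent.H140.PS.Lam
import Pool.Agent.H251.SP.WMP

/-!
# Sign patterns of the Liouville function along linear forms, and short intervals
-/

set_option autoImplicit false
set_option linter.all false

namespace Pool.Agent.H140.PS

open Polynomial Finset Filter Topology
open scoped Classical
open Pool.Agent.H524.Cw
open Pool.Agent.H694.Typ (Mn mem_Mn card_Mn)

/-- **Sets of shifts.** -/
theorem powW (K : Type) [Field K] [Fintype K] [CharP K 2] (k : ℕ) :
    ∃ c : ℝ, 0 < c ∧ c ≤ 1 ∧ ∃ n₀ : ℕ, ∀ n : ℕ, n₀ ≤ n → ∀ (W : Finset K[X]) (Q r : K[X]),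
      W.Nonempty → W.card ≤ k → (∀ w ∈ W, w.natDegree < n) → Q.Monic →
      (Q.natDegree : ℝ) ≤ c * n →
      |∑ f ∈ (Mn K n).filter (fun f => Q ∣ f - r), ∏ w ∈ W, (lio (f + w) : ℝ)| ≤
        (Fintype.card K : ℝ) ^ ((n : ℝ) - c * n) := by
  have hq1 : (1 : ℝ) ≤ (Fintype.card K : ℝ) := by
    exact_mod_cast (Fintype.one_lt_card : 1 < Fintype.card K).le
  induction k with
  | zero =>
    refine ⟨1, one_pos, le_rfl, 0, fun n _ W Q r hW hk => ?_⟩
    have := Finset.card_pos.2 hW
    omega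
  | succ k ih =>
    obtain ⟨c, hc, hc1, n₀, h1⟩ := ih
    obtain ⟨d, hd, n₁, h2⟩ := powL K (k + 1) (by omega)
    refine ⟨min c d, lt_min hc hd, (min_le_left _ _).trans hc1, max n₀ n₁,
      fun n hn W Q r hW hk hdeg hQ hQd => ?_⟩
    have hn0 : (0 : ℝ) ≤ n := Nat.cast_nonneg n
    rcases Nat.lt_or_ge W.card (k + 1) with hlt | hge
    · refine (h1 n ((le_max_left _ _).trans hn) W Q r hW (by omega) hdeg hQ
        (hQd.trans (mul_le_mul_of_nonneg_right (min_le_left _ _) hn0))).trans ?_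
      refine Real.rpow_le_rpow_of_exponent_le hq1 ?_
      have := mul_le_mul_of_nonneg_right (min_le_left c d) hn0
      linarith
    · have hcard : W.card = k + 1 := le_antisymm hk hge
      set e : Fin (k + 1) ≃ W := (Fintype.equivFinOfCardEq (by rw [Fintype.card_coe, hcard])).symm
        with he
      have h3 := h2 n ((le_max_right _ _).trans hn) (fun i => (e i : K[X])) Q r
        (Subtype.val_injective.comp e.injective) (fun i => hdeg _ (e i).2) hQ
        (hQd.trans (mul_le_mul_of_nonneg_right (min_le_right _ _) hn0))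
      have h4 : ∀ f : K[X], ∏ w ∈ W, (lio (f + w) : ℝ) =
          ∏ i : Fin (k + 1), (lio (f + (e i : K[X])) : ℝ) := by
        intro f
        rw [← Finset.prod_coe_sort W (fun w => (lio (f + w) : ℝ))]
        exact (Equiv.prod_comp e (fun w : W => (lio (f + (w : K[X])) : ℝ))).symm
      rw [Finset.sum_congr rfl fun f _ => h4 f]
      refine h3.trans ?_
      refine Real.rpow_le_rpow_of_exponent_le hq1 ?_
      have := mul_le_mul_of_nonneg_right (min_le_right c d) hn0
      linarith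

/-- Sums over the multiples of a monic polynomial. -/
theorem sum_mul {K : Type} [Field K] [Fintype K] (A Q r : K[X]) (hAm : A.Monic) (n : ℕ)
    (F : K[X] → ℝ) :
    ∑ f ∈ (Mn K n).filter (fun f => Q ∣ f - r), F (A * f) =
      ∑ G ∈ (Mn K (n + A.natDegree)).filter (fun G => A * Q ∣ G - A * r), F G := by
  refine Finset.sum_bij (fun f _ => A * f) ?_ ?_ ?_ ?_
  · intro f hf
    rw [mem_filter, mem_Mn] at hf ⊢
    refine ⟨⟨hAm.mul hf.1.1, ?_⟩, ?_⟩
    · rw [hAm.natDegree_mul hf.1.1, hf.1.2, add_comm]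
    · rw [← mul_sub]
      exact mul_dvd_mul_left A hf.2
  · intro f _ g _ hfg
    exact mul_left_cancel₀ hAm.ne_zero hfg
  · intro G hG
    rw [mem_filter, mem_Mn] at hG
    have h1 : A ∣ G := by
      have h2 : A ∣ G - A * r := (dvd_mul_right A Q).trans hG.2
      have h3 := dvd_add h2 (dvd_mul_right A r)
      rwa [sub_add_cancel] at h3
    obtain ⟨f, rfl⟩ := h1
    have hfm : f.Monic := hAm.of_mul_monic_left hG.1.1
    refine ⟨f, ?_, rfl⟩
    rw [mem_filter, mem_Mn]
    refine ⟨⟨hfm, ?_⟩, ?_⟩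
    · have := hG.1.2
      rw [hAm.natDegree_mul hfm] at this
      omega
    · rw [← mul_sub] at hG
      exact (mul_dvd_mul_iff_left hAm.ne_zero).1 hG.2
  · intro f _
    rfl

/-- Linear forms are reduced to shifts of a multiple. -/
theorem reduce {K : Type} [Field K] [Fintype K] {k : ℕ} (a b : Fin k → K[X]) (n : ℕ)
    (hab : ∀ i, a i ≠ 0 ∧ (b i).natDegree < n + (a i).natDegree)
    (hne : ∀ i j, i ≠ j → a i * b j ≠ a j * b i) :
    ∃ (A : K[X]) (s : Fin k → ℝ) (h : Fin k → K[X]), A.Monic ∧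
      A.natDegree = ∑ i, (a i).natDegree ∧ (∀ i, s i * s i = 1) ∧ (∀ i, |s i| = 1) ∧
      Function.Injective h ∧ (∀ i, (h i).natDegree < n + A.natDegree) ∧
      ∀ (i : Fin k) (f : K[X]), (lio (a i * f + b i) : ℝ) = s i * (lio (A * f + h i) : ℝ) := by
  have hA0 : (∏ i, a i) ≠ 0 := Finset.prod_ne_zero_iff.2 fun i _ => (hab i).1
  set γ : K := (∏ i, a i).leadingCoeff with hγ
  have hγ0 : γ ≠ 0 := leadingCoeff_ne_zero.2 hA0
  set A : K[X] := (∏ i, a i) * C γ⁻¹ with hA
  have hAm : A.Monic := monic_mul_leadingCoeff_inv hA0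
  obtain ⟨e, hAe⟩ : ∃ e : Fin k → K[X], ∀ i, a i * e i = A := by
    refine ⟨fun i => (∏ j ∈ univ.erase i, a j) * C γ⁻¹, fun i => ?_⟩
    rw [hA, ← mul_assoc, Finset.mul_prod_erase univ a (mem_univ i)]
  have he0 : ∀ i, e i ≠ 0 := by
    intro i h0
    have := hAe i
    rw [h0, mul_zero] at this
    exact hAm.ne_zero this.symm
  have hAd : A.natDegree = ∑ i, (a i).natDegree := by
    rw [hA, natDegree_mul_C (inv_ne_zero hγ0), natDegree_prod _ _ fun i _ => (hab i).1]
  have hdeg : ∀ i, (a i).natDegree + (e i).natDegree = A.natDegree := by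
    intro i
    rw [← hAe i, natDegree_mul (hab i).1 (he0 i)]
  have hself : ∀ i, (lio (e i) : ℝ) * (lio (e i) : ℝ) = 1 := by
    intro i
    exact_mod_cast lio_self (he0 i)
  refine ⟨A, fun i => (lio (e i) : ℝ), fun i => e i * b i, hAm, hAd, hself, fun i => ?_, ?_, ?_, ?_⟩
  · have h1 := hself i
    have h2 : |(lio (e i) : ℝ)| * |(lio (e i) : ℝ)| = 1 := by
      rw [abs_mul_abs_self, h1]
    nlinarith [abs_nonneg (lio (e i) : ℝ), h2]
  · intro i j hij
    by_contra hcon
    apply hne i j hcon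
    have h1 : e i * b i = e j * b j := hij
    have h2 : A * (a i * b j) = A * (a j * b i) := by
      calc A * (a i * b j) = (a j * e j) * (a i * b j) := by rw [hAe j]
        _ = a j * a i * (e j * b j) := by ring
        _ = a j * a i * (e i * b i) := by rw [h1]
        _ = (a i * e i) * (a j * b i) := by ring
        _ = A * (a j * b i) := by rw [hAe i]
    exact mul_left_cancel₀ hAm.ne_zero h2
  · intro i
    have h1 : (e i * b i).natDegree ≤ (e i).natDegree + (b i).natDegree := natDegree_mul_le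
    have h2 := (hab i).2
    have h3 := hdeg i
    show (e i * b i).natDegree < n + A.natDegree
    omega
  · intro i f
    have h1 : A * f + e i * b i = e i * (a i * f + b i) := by
      rw [← hAe i]
      ring
    have h2 : (lio (A * f + e i * b i) : ℝ) = (lio (e i) : ℝ) * (lio (a i * f + b i) : ℝ) := by
      rw [h1, lio_mul (e i) (a i * f + b i)]
      push_cast
      rfl
    show (lio (a i * f + b i) : ℝ) = (lio (e i) : ℝ) * (lio (A * f + e i * b i) : ℝ)
    rw [h2, ← mul_assoc, hself i, one_mul]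

/-- The sum over a nonempty subset of the forms. -/
theorem powS (K : Type) [Field K] [Fintype K] [CharP K 2] (k : ℕ) :
    ∃ c : ℝ, 0 < c ∧ c ≤ 1 ∧ ∃ n₀ : ℕ, ∀ n : ℕ, n₀ ≤ n → ∀ (a b : Fin k → K[X]) (Q r : K[X]),
      (∀ i, a i ≠ 0 ∧ ((a i).natDegree : ℝ) ≤ c * n ∧ (b i).natDegree < n + (a i).natDegree) →
      (∀ i j, i ≠ j → a i * b j ≠ a j * b i) → Q.Monic → (Q.natDegree : ℝ) ≤ c * n →
      ∀ S : Finset (Fin k), S.Nonempty →
      |∑ f ∈ (Mn K n).filter (fun f => Q ∣ f - r), ∏ i ∈ S, (lio (a i * f + b i) : ℝ)| ≤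
        (Fintype.card K : ℝ) ^ ((n : ℝ) - c * n) := by
  obtain ⟨c, hc, hc1, n₀, hn₀⟩ := powW K k
  have hq1 : (1 : ℝ) ≤ (Fintype.card K : ℝ) := by
    exact_mod_cast (Fintype.one_lt_card : 1 < Fintype.card K).le
  have hk0 : (0 : ℝ) ≤ k := Nat.cast_nonneg k
  refine ⟨c / (2 * (k + 1)), by positivity, ?_, n₀, fun n hn a b Q r hab hne hQ hQd S hS => ?_⟩
  · rw [div_le_one (by positivity)]
    nlinarith
  have hn0 : (0 : ℝ) ≤ n := Nat.cast_nonneg n
  obtain ⟨A, s, h, hAm, hAd, -, hs, hinj, hhd, hform⟩ := reduce a b n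
    (fun i => ⟨(hab i).1, (hab i).2.2⟩) hne
  have hAdr : (A.natDegree : ℝ) ≤ k * (c / (2 * (k + 1)) * n) := by
    rw [hAd]
    push_cast
    calc ∑ i, ((a i).natDegree : ℝ) ≤ ∑ i : Fin k, c / (2 * (k + 1)) * n :=
          Finset.sum_le_sum fun i _ => (hab i).2.1
      _ = k * (c / (2 * (k + 1)) * n) := by
          rw [Finset.sum_const, Finset.card_univ, Fintype.card_fin, nsmul_eq_mul]
  have hAQd : ((A * Q).natDegree : ℝ) ≤ c * ((n + A.natDegree : ℕ) : ℝ) := by
    rw [hAm.natDegree_mul hQ]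
    push_cast
    have h1 : k * (c / (2 * (k + 1)) * n) + c / (2 * (k + 1)) * n ≤ c * n := by
      have : k * (c / (2 * (k + 1)) * n) + c / (2 * (k + 1)) * n = c / 2 * n := by
        field_simp
      rw [this]
      have := mul_nonneg hc.le hn0
      linarith
    have h2 : (0 : ℝ) ≤ c * A.natDegree := by positivity
    linarith
  have hmain := hn₀ (n + A.natDegree) (by omega) (S.image h) (A * Q) (A * r) (hS.image h)
    ((Finset.card_image_le).trans ((Finset.card_le_univ S).trans (by rw [Fintype.card_fin])))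
    (fun w hw => by
      obtain ⟨i, -, rfl⟩ := Finset.mem_image.1 hw
      exact hhd i) (hAm.mul hQ) hAQd
  have hprod : ∀ f : K[X], ∏ i ∈ S, (lio (a i * f + b i) : ℝ) =
      (∏ i ∈ S, s i) * ∏ w ∈ S.image h, (lio (A * f + w) : ℝ) := by
    intro f
    rw [Finset.prod_image fun i _ j _ hij => hinj hij, ← Finset.prod_mul_distrib]
    exact Finset.prod_congr rfl fun i _ => hform i f
  rw [Finset.sum_congr rfl fun f _ => hprod f, ← Finset.mul_sum,
    sum_mul A Q r hAm n (fun G => ∏ w ∈ S.image h, (lio (G + w) : ℝ)), abs_mul, Finset.abs_prod,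
    Finset.prod_congr rfl fun i _ => hs i, Finset.prod_const_one, one_mul]
  refine hmain.trans ?_
  refine Real.rpow_le_rpow_of_exponent_le hq1 ?_
  push_cast
  have h2 : (k : ℝ) * (c / (2 * (k + 1)) * n) + c / (2 * (k + 1)) * n = c / 2 * n := by
    field_simp
  have h3 : (0 : ℝ) ≤ c * A.natDegree := by positivity
  have h4 : (0 : ℝ) ≤ c * n := by positivity
  linarith

/-- **Sign patterns.** -/
theorem pat (K : Type) [Field K] [Fintype K] [CharP K 2] (k : ℕ) :
    ∃ c : ℝ, 0 < c ∧ c ≤ 1 ∧ ∃ n₀ : ℕ, ∀ n : ℕ, n₀ ≤ n → ∀ (a b : Fin k → K[X]) (Q r : K[X]),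
      (∀ i, a i ≠ 0 ∧ ((a i).natDegree : ℝ) ≤ c * n ∧ (b i).natDegree < n + (a i).natDegree) →
      (∀ i j, i ≠ j → a i * b j ≠ a j * b i) → Q.Monic → (Q.natDegree : ℝ) ≤ c * n →
      ∀ σ : Fin k → ℤ, (∀ i, σ i = 1 ∨ σ i = -1) →
      |((((Mn K n).filter (fun f => Q ∣ f - r)).filter
          (fun f => ∀ i, lio (a i * f + b i) = σ i)).card : ℝ) -
        (Fintype.card K : ℝ) ^ (n - Q.natDegree) / 2 ^ k| ≤
        (Fintype.card K : ℝ) ^ ((n : ℝ) - c * n) := by
  obtain ⟨c, hc, hc1, n₀, hn₀⟩ := powS K k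
  refine ⟨c, hc, hc1, n₀, fun n hn a b Q r hab hne hQ hQd σ hσ => ?_⟩
  have hn0 : (0 : ℝ) ≤ n := Nat.cast_nonneg n
  set q : ℝ := (Fintype.card K : ℝ) with hqdef
  set M : Finset K[X] := (Mn K n).filter (fun f => Q ∣ f - r) with hM
  have hcardM : (M.card : ℝ) = q ^ (n - Q.natDegree) := by
    have hQn : Q.natDegree ≤ n := by
      have : (Q.natDegree : ℝ) ≤ n := hQd.trans (by nlinarith)
      exact_mod_cast this
    rw [hM, Pool.Agent.H251.SP.WMPL.card_class hQ r hQn, hqdef]
    push_cast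
    rfl
  -- the indicator function
  have hind : ∀ f ∈ M, (if ∀ i, lio (a i * f + b i) = σ i then (1 : ℝ) else 0) =
      (1 / 2) ^ k * ∏ i, (1 + (σ i : ℝ) * (lio (a i * f + b i) : ℝ)) := by
    intro f hf
    rw [hM, mem_filter, mem_Mn] at hf
    have hval : ∀ i, lio (a i * f + b i) = 1 ∨ lio (a i * f + b i) = -1 := by
      intro i
      have hne0 : a i * f + b i ≠ 0 := by
        intro h0
        have h1 : (a i * f).natDegree = (a i).natDegree + n := by
          rw [natDegree_mul (hab i).1 hf.1.1.ne_zero, hf.1.2]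
        have h2 : a i * f = -b i := eq_neg_of_add_eq_zero_left h0
        rw [h2, natDegree_neg] at h1
        have := (hab i).2.2
        omega
      have := lio_self hne0
      exact mul_self_eq_one_iff.1 this
    by_cases hall : ∀ i, lio (a i * f + b i) = σ i
    · rw [if_pos hall]
      have h1 : ∀ i : Fin k, (1 : ℝ) + (σ i : ℝ) * (lio (a i * f + b i) : ℝ) = 2 := by
        intro i
        rw [hall i]
        rcases hσ i with h | h <;> rw [h] <;> norm_num
      rw [Finset.prod_congr rfl fun i _ => h1 i, Finset.prod_const, Finset.card_univ,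
        Fintype.card_fin, ← mul_pow]
      norm_num
    · rw [if_neg hall]
      push Not at hall
      obtain ⟨i, hi⟩ := hall
      have h1 : (1 : ℝ) + (σ i : ℝ) * (lio (a i * f + b i) : ℝ) = 0 := by
        rcases hσ i with h | h <;> rcases hval i with h' | h' <;> rw [h, h'] at hi ⊢ <;>
          first
          | exact absurd rfl hi
          | norm_num
      rw [Finset.prod_eq_zero (mem_univ i) h1, mul_zero]
  have hcount : (((M.filter (fun f => ∀ i, lio (a i * f + b i) = σ i)).card : ℕ) : ℝ) =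
      (1 / 2) ^ k * ∑ S : Finset (Fin k), ∑ f ∈ M, (∏ i ∈ S, (σ i : ℝ)) *
        ∏ i ∈ S, (lio (a i * f + b i) : ℝ) := by
    rw [Finset.sum_comm, Finset.mul_sum, Finset.card_filter]
    push_cast
    refine Finset.sum_congr rfl fun f hf => ?_
    rw [hind f hf]
    congr 1
    have h1 : ∀ i : Fin k, (1 : ℝ) + (σ i : ℝ) * (lio (a i * f + b i) : ℝ) =
        (σ i : ℝ) * (lio (a i * f + b i) : ℝ) + 1 := fun i => add_comm _ _
    rw [Finset.prod_congr rfl fun i _ => h1 i, Finset.prod_add_one]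
    rw [Finset.powerset_univ]
    exact Finset.sum_congr rfl fun S _ => Finset.prod_mul_distrib
  rw [hcount]
  have hsplit : ∑ S : Finset (Fin k), ∑ f ∈ M, (∏ i ∈ S, (σ i : ℝ)) *
        ∏ i ∈ S, (lio (a i * f + b i) : ℝ) =
      q ^ (n - Q.natDegree) + ∑ S ∈ (univ : Finset (Finset (Fin k))).erase ∅,
        ∑ f ∈ M, (∏ i ∈ S, (σ i : ℝ)) * ∏ i ∈ S, (lio (a i * f + b i) : ℝ) := by
    rw [← Finset.add_sum_erase univ _ (mem_univ (∅ : Finset (Fin k)))]
    simp only [Finset.prod_empty, mul_one, Finset.sum_const, nsmul_eq_mul]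
    rw [hcardM]
  rw [hsplit, mul_add]
  have h2 : (1 / 2 : ℝ) ^ k * q ^ (n - Q.natDegree) = q ^ (n - Q.natDegree) / 2 ^ k := by
    rw [one_div, inv_pow]
    field_simp
  rw [h2, add_sub_cancel_left, abs_mul, abs_of_nonneg (by positivity : (0 : ℝ) ≤ (1 / 2) ^ k)]
  have hB : ∀ S ∈ (univ : Finset (Finset (Fin k))).erase ∅,
      |∑ f ∈ M, (∏ i ∈ S, (σ i : ℝ)) * ∏ i ∈ S, (lio (a i * f + b i) : ℝ)| ≤
        q ^ ((n : ℝ) - c * n) := by
    intro S hS
    have hSne : S.Nonempty := Finset.nonempty_of_ne_empty (Finset.ne_of_mem_erase hS)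
    rw [← Finset.mul_sum, abs_mul, Finset.abs_prod]
    have h1 : ∀ i ∈ S, |(σ i : ℝ)| = 1 := by
      intro i _
      rcases hσ i with h | h <;> rw [h] <;> simp
    rw [Finset.prod_congr rfl h1, Finset.prod_const_one, one_mul]
    exact hn₀ n hn a b Q r hab hne hQ hQd S hSne
  have hcardS : (((univ : Finset (Finset (Fin k))).erase ∅).card : ℝ) ≤ 2 ^ k := by
    have h1 : ((univ : Finset (Finset (Fin k))).erase ∅).card ≤ (univ : Finset (Finset (Fin k))).card :=
      Finset.card_le_card (Finset.erase_subset _ _)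
    rw [Finset.card_univ, Fintype.card_finset, Fintype.card_fin] at h1
    exact_mod_cast h1
  calc (1 / 2 : ℝ) ^ k * |∑ S ∈ (univ : Finset (Finset (Fin k))).erase ∅,
        ∑ f ∈ M, (∏ i ∈ S, (σ i : ℝ)) * ∏ i ∈ S, (lio (a i * f + b i) : ℝ)| ≤
      (1 / 2 : ℝ) ^ k * (2 ^ k * q ^ ((n : ℝ) - c * n)) := by
        refine mul_le_mul_of_nonneg_left ?_ (by positivity)
        refine (Finset.abs_sum_le_sum_abs _ _).trans ((Finset.sum_le_sum hB).trans ?_)
        rw [Finset.sum_const, nsmul_eq_mul]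
        exact mul_le_mul_of_nonneg_right hcardS (Real.rpow_nonneg (by positivity) _)
    _ = q ^ ((n : ℝ) - c * n) := by
        rw [← mul_assoc, ← mul_pow]
        norm_num

end Pool.Agent.H140.PS
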