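import Mathlib
import Pool.Agent.H140.PS.Pat
import Pool.Agent.H985.Cor.StmCor

/-!
# Products of the Liouville function in almost all short intervals
-/

set_option autoImplicit false
set_option linter.all false

namespace Pool.Agent.H140.PS

open Polynomial Finset Filter Topology
open scoped Classical
open Pool.Agent.H524.Cw
open Pool.Agent.H694.Typ (Mn mem_Mn card_Mn)
open Pool.Agent.H985.Cor (Bx mem_Bx card_Bx)

/-- A product over two sets, for values `±1`. -/
theorem prod_symm {α : Type} [DecidableEq α] (U V : Finset α) (x : α → ℝ) (hx : ∀ w ∈ U, x w * x w = 1) :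
    (∏ w ∈ U, x w) * ∏ w ∈ V, x w = ∏ w ∈ (U \ V) ∪ (V \ U), x w := by
  have hd : Disjoint (U \ V) (V \ U) := by
    rw [Finset.disjoint_left]
    intro w h1 h2
    exact (Finset.mem_sdiff.1 h1).2 (Finset.mem_sdiff.1 h2).1
  rw [Finset.prod_union hd, ← Finset.prod_inter_mul_prod_diff U V x,
    ← Finset.prod_inter_mul_prod_diff V U x, Finset.inter_comm V U]
  have h1 : (∏ w ∈ U ∩ V, x w) * ∏ w ∈ U ∩ V, x w = 1 := by
    rw [← Finset.prod_mul_distrib]
    exact Finset.prod_eq_one fun w hw => hx w (Finset.mem_inter.1 hw).1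
  calc ((∏ w ∈ U ∩ V, x w) * ∏ w ∈ U \ V, x w) * ((∏ w ∈ U ∩ V, x w) * ∏ w ∈ V \ U, x w) =
      ((∏ w ∈ U ∩ V, x w) * ∏ w ∈ U ∩ V, x w) * ((∏ w ∈ U \ V, x w) * ∏ w ∈ V \ U, x w) := by ring
    _ = _ := by rw [h1, one_mul]

/-- **Short intervals.** -/
theorem short (K : Type) [Field K] [Fintype K] [CharP K 2] (k : ℕ) (hk : 1 ≤ k) :
    ∃ c : ℝ, 0 < c ∧ ∃ n₀ : ℕ, ∀ n m : ℕ, n₀ ≤ n → m ≤ n → ∀ (a b : Fin k → K[X]),
      (∀ i, a i ≠ 0 ∧ ((a i).natDegree : ℝ) ≤ c * n ∧ (b i).natDegree < n + (a i).natDegree) →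
      (∀ i j, i ≠ j → a i * b j ≠ a j * b i) →
      ∑ f ∈ Mn K n, (∑ u ∈ Bx K m, ∏ i, (lio (a i * (f + u) + b i) : ℝ)) ^ 2 ≤
        k * (Fintype.card K : ℝ) ^ (m + n) +
          (Fintype.card K : ℝ) ^ (2 * m) * (Fintype.card K : ℝ) ^ ((n : ℝ) - c * n) := by
  obtain ⟨c, hc, hc1, n₀, hn₀⟩ := powW K (2 * k)
  have hq1 : (1 : ℝ) ≤ (Fintype.card K : ℝ) := by
    exact_mod_cast (Fintype.one_lt_card : 1 < Fintype.card K).le
  have hk0 : (0 : ℝ) ≤ k := Nat.cast_nonneg k
  refine ⟨c / (2 * (k + 1)), by positivity, n₀, fun n m hn hm a b hab hne => ?_⟩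
  have hn0 : (0 : ℝ) ≤ n := Nat.cast_nonneg n
  obtain ⟨A, s, h, hAm, hAd, hss, hs, hinj, hhd, hform⟩ := reduce a b n
    (fun i => ⟨(hab i).1, (hab i).2.2⟩) hne
  set q : ℝ := (Fintype.card K : ℝ) with hqdef
  have hq0 : (0 : ℝ) < q := by linarith
  have hAdr : (A.natDegree : ℝ) ≤ k * (c / (2 * (k + 1)) * n) := by
    rw [hAd]
    push_cast
    calc ∑ i, ((a i).natDegree : ℝ) ≤ ∑ i : Fin k, c / (2 * (k + 1)) * n :=
          Finset.sum_le_sum fun i _ => (hab i).2.1
      _ = k * (c / (2 * (k + 1)) * n) := by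
          rw [Finset.sum_const, Finset.card_univ, Fintype.card_fin, nsmul_eq_mul]
  have hkey : (k : ℝ) * (c / (2 * (k + 1)) * n) + c / (2 * (k + 1)) * n = c / 2 * n := by
    field_simp
  have hcn : (0 : ℝ) ≤ c / (2 * (k + 1)) * n := by positivity
  have hAQd : (A.natDegree : ℝ) ≤ c * ((n + A.natDegree : ℕ) : ℝ) := by
    push_cast
    have h2 : (0 : ℝ) ≤ c * A.natDegree := by positivity
    have h3 : (0 : ℝ) ≤ c * n := by positivity
    linarith
  -- the sets of shifts
  set W : K[X] → Finset K[X] := fun u => (univ : Finset (Fin k)).image (fun i => h i + A * u) with hW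
  set N : ℕ := n + A.natDegree with hN
  have hWinj : ∀ u : K[X], Function.Injective fun i => h i + A * u := by
    intro u i j hij
    exact hinj (add_right_cancel hij)
  have hWdeg : ∀ u ∈ Bx K m, ∀ w ∈ W u, w.natDegree < N := by
    intro u hu w hw
    obtain ⟨i, -, rfl⟩ := Finset.mem_image.1 hw
    rw [mem_Bx] at hu
    have hNpos : 0 < N := lt_of_le_of_lt (Nat.zero_le _) (hhd i)
    rcases eq_or_ne u 0 with rfl | hu0
    · rw [mul_zero, add_zero]
      exact hhd i
    · have h1 : u.natDegree < m := (natDegree_lt_iff_degree_lt hu0).2 hu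
      refine lt_of_le_of_lt (natDegree_add_le _ _) (max_lt (hhd i) ?_)
      rw [hAm.natDegree_mul' hu0]
      omega
  have hWcard : ∀ u, (W u).card ≤ k := by
    intro u
    refine Finset.card_image_le.trans ?_
    rw [Finset.card_univ, Fintype.card_fin]
  have hprod : ∀ u f : K[X], ∏ i, (lio (a i * (f + u) + b i) : ℝ) =
      (∏ i, s i) * ∏ w ∈ W u, (lio (A * f + w) : ℝ) := by
    intro u f
    rw [hW]
    simp only
    rw [Finset.prod_image fun i _ j _ hij => hWinj u hij, ← Finset.prod_mul_distrib]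
    refine Finset.prod_congr rfl fun i _ => ?_
    rw [hform i (f + u)]
    have h1 : A * (f + u) + h i = A * f + (h i + A * u) := by ring
    rw [h1]
  set S : K[X] → ℝ := fun G => ∑ u ∈ Bx K m, ∏ w ∈ W u, (lio (G + w) : ℝ) with hS
  have hsq : ∀ f : K[X], (∑ u ∈ Bx K m, ∏ i, (lio (a i * (f + u) + b i) : ℝ)) ^ 2 =
      S (A * f) ^ 2 := by
    intro f
    rw [Finset.sum_congr rfl fun u _ => hprod u f, ← Finset.mul_sum, mul_pow]
    have h1 : (∏ i, s i) ^ 2 = 1 := by
      rw [← Finset.prod_pow]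
      refine Finset.prod_eq_one fun i _ => ?_
      rw [sq, hss i]
    rw [h1, one_mul]
  rw [Finset.sum_congr rfl fun f _ => hsq f]
  set M : Finset K[X] := (Mn K N).filter (fun G => A ∣ G) with hM
  have hsum : ∑ f ∈ Mn K n, S (A * f) ^ 2 = ∑ G ∈ M, S G ^ 2 := by
    have h1 := sum_mul A 1 0 hAm n (fun G => S G ^ 2)
    simp only [one_dvd, Finset.filter_true, mul_one, mul_zero, sub_zero] at h1
    exact h1
  have hcardM : (M.card : ℝ) = q ^ n := by
    have h1 := Pool.Agent.H251.SP.WMPL.card_class hAm 0 (n := N) (by omega)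
    simp only [sub_zero] at h1
    rw [hM, h1, hqdef]
    push_cast
    congr 1
    omega
  rw [hsum]
  -- expansion of the square
  have hpair : ∀ u ∈ Bx K m, ∀ v ∈ Bx K m,
      ∑ G ∈ M, (∏ w ∈ W u, (lio (G + w) : ℝ)) * ∏ w ∈ W v, (lio (G + w) : ℝ) ≤
        (if W u = W v then q ^ n else 0) + q ^ ((n : ℝ) - c / (2 * (k + 1)) * n) := by
    intro u hu v hv
    have h1 : ∀ G ∈ M, (∏ w ∈ W u, (lio (G + w) : ℝ)) * ∏ w ∈ W v, (lio (G + w) : ℝ) =
        ∏ w ∈ (W u \ W v) ∪ (W v \ W u), (lio (G + w) : ℝ) := by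
      intro G hG
      refine prod_symm _ _ _ fun w hw => ?_
      rw [hM, mem_filter, mem_Mn] at hG
      have h2 : G + w ≠ 0 := by
        intro h0
        have h3 : G = -w := eq_neg_of_add_eq_zero_left h0
        have h4 := hG.1.2
        rw [h3, natDegree_neg] at h4
        have := hWdeg u hu w hw
        omega
      exact_mod_cast lio_self h2
    rw [Finset.sum_congr rfl h1]
    have hpos : (0 : ℝ) ≤ q ^ ((n : ℝ) - c / (2 * (k + 1)) * n) := Real.rpow_nonneg hq0.le _
    by_cases huv : W u = W v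
    · rw [if_pos huv, huv]
      simp only [Finset.sdiff_self, Finset.union_self, Finset.prod_empty, Finset.sum_const,
        nsmul_eq_mul, mul_one]
      rw [hcardM]
      linarith
    · rw [if_neg huv, zero_add]
      have hne' : ((W u \ W v) ∪ (W v \ W u)).Nonempty := by
        by_contra hcon
        rw [Finset.not_nonempty_iff_eq_empty, Finset.union_eq_empty] at hcon
        apply huv
        exact Finset.Subset.antisymm (Finset.sdiff_eq_empty_iff_subset.1 hcon.1)
          (Finset.sdiff_eq_empty_iff_subset.1 hcon.2)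
      have hc2 : ((W u \ W v) ∪ (W v \ W u)).card ≤ 2 * k := by
        have h3 := Finset.card_union_le (W u \ W v) (W v \ W u)
        have h4 := Finset.card_le_card (Finset.sdiff_subset (s := W u) (t := W v))
        have h5 := Finset.card_le_card (Finset.sdiff_subset (s := W v) (t := W u))
        have h6 := hWcard u
        have h7 := hWcard v
        omega
      have h3 := hn₀ N (by omega) ((W u \ W v) ∪ (W v \ W u)) A 0 hne' hc2 (fun w hw => by
        rcases Finset.mem_union.1 hw with h | h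
        · exact hWdeg u hu w (Finset.mem_sdiff.1 h).1
        · exact hWdeg v hv w (Finset.mem_sdiff.1 h).1) hAm hAQd
      simp only [sub_zero] at h3
      refine (le_abs_self _).trans (h3.trans ?_)
      refine Real.rpow_le_rpow_of_exponent_le hq1 ?_
      rw [hN]
      push_cast
      have h4 : (0 : ℝ) ≤ c * A.natDegree := by positivity
      have h5 : (0 : ℝ) ≤ c * n := by positivity
      linarith
  have hcount : ∀ u ∈ Bx K m, (((Bx K m).filter (fun v => W u = W v)).card : ℝ) ≤ k := by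
    intro u hu
    have i0 : Fin k := ⟨0, hk⟩
    have h1 : (Bx K m).filter (fun v => W u = W v) ⊆
        (univ : Finset (Fin k)).image (fun j => (h i0 + A * u - h j) / A) := by
      intro v hv
      rw [mem_filter] at hv
      have h2 : h i0 + A * u ∈ W v := by
        rw [← hv.2]
        exact Finset.mem_image.2 ⟨i0, mem_univ _, rfl⟩
      obtain ⟨j, -, hj⟩ := Finset.mem_image.1 h2
      refine Finset.mem_image.2 ⟨j, mem_univ _, ?_⟩
      have h3 : h i0 + A * u - h j = A * v := by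
        rw [← hj]
        ring
      rw [h3, mul_div_cancel_left₀ _ hAm.ne_zero]
    have h2 := (Finset.card_le_card h1).trans Finset.card_image_le
    rw [Finset.card_univ, Fintype.card_fin] at h2
    exact_mod_cast h2
  calc ∑ G ∈ M, S G ^ 2 = ∑ u ∈ Bx K m, ∑ v ∈ Bx K m,
        ∑ G ∈ M, (∏ w ∈ W u, (lio (G + w) : ℝ)) * ∏ w ∈ W v, (lio (G + w) : ℝ) := by
        have h1 : ∀ G : K[X], S G ^ 2 = ∑ u ∈ Bx K m, ∑ v ∈ Bx K m,
            (∏ w ∈ W u, (lio (G + w) : ℝ)) * ∏ w ∈ W v, (lio (G + w) : ℝ) := by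
          intro G
          rw [sq, hS]
          exact Finset.sum_mul_sum _ _ _ _
        rw [Finset.sum_congr rfl fun G _ => h1 G, Finset.sum_comm]
        refine Finset.sum_congr rfl fun u _ => ?_
        rw [Finset.sum_comm]
    _ ≤ ∑ u ∈ Bx K m, ∑ v ∈ Bx K m,
        ((if W u = W v then q ^ n else 0) + q ^ ((n : ℝ) - c / (2 * (k + 1)) * n)) :=
        Finset.sum_le_sum fun u hu => Finset.sum_le_sum fun v hv => hpair u hu v hv
    _ ≤ ∑ u ∈ Bx K m, (k * q ^ n + q ^ m * q ^ ((n : ℝ) - c / (2 * (k + 1)) * n)) := by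
        refine Finset.sum_le_sum fun u hu => ?_
        rw [Finset.sum_add_distrib, Finset.sum_const, nsmul_eq_mul, card_Bx, ← Finset.sum_filter,
          Finset.sum_const, nsmul_eq_mul]
        push_cast
        refine add_le_add ?_ le_rfl
        exact mul_le_mul_of_nonneg_right (hcount u hu) (by positivity)
    _ = k * q ^ (m + n) + q ^ (2 * m) * q ^ ((n : ℝ) - c / (2 * (k + 1)) * n) := by
        rw [Finset.sum_const, nsmul_eq_mul, card_Bx]
        push_cast
        ring

end Pool.Agent.H140.PS
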